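import Pool.Agent.W2helper89.ZS.Class

/-!
# Zagier's conjecture: one element suffices

Let `T` be the K-theory of number fields with the theorems of Borel and of Beilinson-Deligne and de Jeu.
`HasNew n F` says that there is a nonzero rational function `a` on the embeddings of the number field `F` with
the parity `(-1)^(n-1)` whose sums over the extensions of any embedding of any proper subfield vanish (call it
new).

* Let `F` be a number field, Galois or not, for which the new functions form an irreducible rational
  representation of `Aut(F)` (for example, all new functions are multiples of one function), and suppose that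
  Zagier's conjecture holds for the proper subfields of `F`. Then Zagier's conjecture holds for `F` if and only
  if there is no new function `≠ 0` or there are ONE new function `a` and ONE element `α ∈ ker δ_n(F)` with
  `Σ_σ a(σ) L_n(σ(α)) ≠ 0`. (The determinant of size `d_n` is replaced by one number.)
* For a class of number fields which is closed under subfields and in which the fields with new functions (which
  satisfy the conditions of `GaloisReduction`) have this irreducibility property, Zagier's conjecture is
  equivalent to the existence of such a pair for these fields.
* Zagier's conjecture for all abelian number fields is equivalent to: for each cyclic field `F` of degree `m`,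
  totally real for odd `n` and CM for even `n`, there are an embedding `σ`, a generator `γ` of the Galois group
  and one element `α ∈ ker δ_n(F)` with `Σ_(k<m) exp(2πik/m) L_n(σ(γ^k α)) ≠ 0`.
-/

set_option autoImplicit false

namespace Pool.Agent.Results.MP_f01982_nt.OneElement

open GonP NumberField Pool.Agent.Q219.ZG Pool.Agent.Q219.ZN Pool.Agent.W2helper89.ZS

theorem result (n : ℕ) (hn : 3 ≤ n) (T : KTheory) (hT : T.IsKnown n) :
    (∀ (F : Type) [Field F] [NumberField F], IrreducibleNew n F →
      (∀ E : IntermediateField ℚ F, E ≠ ⊤ → Zagier n E) →
        (Zagier n F ↔ (HasNew n F → HasOne n F))) ∧
    (∀ P : ∀ (F : Type) [Field F] [NumberField F], Prop,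
      (∀ (F : Type) [Field F] [NumberField F], P F → ∀ E : IntermediateField ℚ F, P E) →
      (∀ (F : Type) [Field F] [NumberField F], P F → HasNew n F → Remaining n F →
        IrreducibleNew n F) →
      ((∀ (F : Type) [Field F] [NumberField F], P F → Zagier n F) ↔
        ∀ (F : Type) [Field F] [NumberField F], P F → HasNew n F → Remaining n F → HasOne n F)) ∧
    ((∀ (F : Type) [Field F] [NumberField F], IsAbelianGalois ℚ F → Zagier n F) ↔
      ∀ (F : Type) [Field F] [NumberField F], (∃ γ : F ≃ₐ[ℚ] F, IsGenerator γ) → Parity n F →
        HasElement n F) :=
  ⟨fun _ _ _ hirr h => zagier_iff_one hn hT hirr h,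
    fun P hP hirr => class_one hn hT P hP hirr,
    abelian_iff hn hT⟩

end Pool.Agent.Results.MP_f01982_nt.OneElement
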