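import Pool.Agent.W2helper89.ZS.Rel

/-!
# Zagier's determinants and sums of subfields

`N(F)` (`Nonvanishing n F`) is the statement that there are elements `y_i` in `ker δ_n(F)` such that the
determinant of the numbers `L_n(σ_j(y_i))` is not zero; Zagier's conjecture for `F` implies `N(F)`, and with the
theorems of Borel and of Beilinson-Deligne and de Jeu `N(F)` implies Zagier's conjecture for `F`.

Let `F` be any number field (Galois or not) and `S` a set of subfields for which `N` holds. Call a function `b`
on the embeddings of `F` new if it has the parity `(-1)^(n-1)` under complex conjugation and its sums over the
extensions of each embedding of each field in `S` vanish. Then `N(F)` holds if there is no rational new function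
`≠ 0`; in general `N(F)` holds if and only if each REAL new function `b ≠ 0` has `Σ_σ b(σ) L_n(σ(α)) ≠ 0` for
some `α ∈ ker δ_n(F)` (so the determinants of size `d_n` are replaced by determinants whose size is the
dimension of the space of the new functions). There is no new function `≠ 0` in each of the following cases.

* `F` is the `ℚ`-linear span of the fields in `S`.
* `F` is generated over a subfield `E₀` by a multiplicatively closed set `M` (for example the products of some
  radicals), and the fields `E₀(r)`, `r ∈ M`, are in `S`.
* `L` is a Galois extension of `F`, `A` is an abelian group of automorphisms of `L` in which only `1` fixes all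
  elements of `F`, and each character of `A` is trivial on a subgroup `B` which is normalised by `Gal(L/F)` and
  for which `F^B` is in `S`. For example: `A` is not cyclic, `Gal(L/F)` acts on `A` by power maps, and `F^B` is
  in `S` for all `B ≠ 1`.
* `n` is odd and over some field in `S` any two embeddings of `F` with the same restriction are equal or
  complex conjugate.

For every class of number fields which is closed under subfields, `N` for the class is equivalent to the
detection of the real new functions (`S` = all proper subfields) for those fields of the class for which none of
these cases applies and which satisfy the conditions of the file `GaloisReduction`.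
-/

set_option autoImplicit false

namespace Pool.Agent.Results.MP_f01982_nt.SumsOfSubfields

open GonP NumberField Pool.Agent.Q219.ZG Pool.Agent.Q219.ZN Pool.Agent.W2helper89.ZS

theorem result (n : ℕ) (hn : 3 ≤ n) :
    (∀ (F : Type) [Field F] [NumberField F] (S : Set (IntermediateField ℚ F)),
      (∀ E ∈ S, Nonvanishing n E) → (Nonvanishing n F ↔ (Shape n F S → DetectsFor n F S))) ∧
    (∀ P : ∀ (F : Type) [Field F] [NumberField F], Prop,
      (∀ (F : Type) [Field F] [NumberField F], P F → ∀ E : IntermediateField ℚ F, P E) →
        ((∀ (F : Type) [Field F] [NumberField F], P F → Nonvanishing n F) ↔
          ∀ (F : Type) [Field F] [NumberField F], P F → Remaining n F →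
            Shape n F (properSubfields F) → DetectsFor n F (properSubfields F))) ∧
    (∀ (F : Type) [Field F] [NumberField F], Zagier n F → Nonvanishing n F) ∧
    (∀ T : KTheory, T.IsKnown n → ∀ (F : Type) [Field F] [NumberField F],
      Nonvanishing n F → Zagier n F) :=
  ⟨fun _ _ _ _ h => nonvanishing_iff_shape hn h,
    fun P hP => class_shape hn P hP,
    fun _ _ _ h => nonvanishing_of_zagier (by omega) h,
    fun _ hT _ _ _ h => zagier_of_nonvanishing (hT.known' hn) h⟩

end Pool.Agent.Results.MP_f01982_nt.SumsOfSubfields
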